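import Pool.Agent.H83.HE.Stm

set_option autoImplicit false

namespace Pool.Agent.H96.HE

open Pool.Agent.H83.HE Polynomial

theorem eval_H (q a12 a22 a13 a23 a33 m n z : ℤ) :
    (H 0 1 a12 a22 q a13 a23 a33 m n).charpoly.eval z =
      z ^ 3 - (a22 + a33 + q * n) * z ^ 2 + (a22 * a33 - a12 - q * m - q * a23) * z -
        (H 0 1 a12 a22 q a13 a23 a33 m n).det := by
  have hs : Matrix.scalar (Fin 3) z = !![z, 0, 0; 0, z, 0; 0, 0, z] := by
    rw [Matrix.scalar_apply]
    ext i j
    fin_cases i <;> fin_cases j <;> rfl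
  rw [Matrix.eval_charpoly, hs, Matrix.det_fin_three, Matrix.det_fin_three]
  simp [H]
  ring

theorem t_RED : S_RED := by
  intro q a12 a22 a13 a23 a33 m n hdet hirr
  set M := H 0 1 a12 a22 q a13 a23 a33 m n with hM
  have hmon : M.charpoly.Monic := M.charpoly_monic
  have hdeg : M.charpoly.natDegree = 3 := by
    rw [Matrix.charpoly_natDegree_eq_dim, Fintype.card_fin]
  have hmon' : (M.charpoly.map (Int.castRingHom ℚ)).Monic := hmon.map _
  have hdeg' : (M.charpoly.map (Int.castRingHom ℚ)).natDegree = 3 := by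
    rw [hmon.natDegree_map, hdeg]
  have hroots : (M.charpoly.map (Int.castRingHom ℚ)).roots ≠ 0 := by
    intro h
    apply hirr
    exact (hmon'.irreducible_iff_roots_eq_zero_of_degree_le_three (by omega) (by omega)).2 h
  obtain ⟨r, hr⟩ := Multiset.exists_mem_of_ne_zero hroots
  have hr' : (M.charpoly.map (Int.castRingHom ℚ)).IsRoot r := isRoot_of_mem_roots hr
  have haev : aeval r M.charpoly = 0 := by
    rw [aeval_def, eval₂_eq_eval_map]
    exact hr'
  obtain ⟨z, hz⟩ := isInteger_of_is_root_of_monic hmon haev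
  have hz0 : M.charpoly.eval z = 0 := by
    have h1 : (M.charpoly.map (Int.castRingHom ℚ)).eval (Int.castRingHom ℚ z) = 0 := by
      have : (Int.castRingHom ℚ z) = r := hz
      rw [this]
      exact hr'
    rw [eval_map_apply] at h1
    exact (map_eq_zero_iff _ (Int.castRingHom ℚ).injective_int).1 h1
  rw [hM, eval_H, ← hM, hdet] at hz0
  have hunit : z * (z ^ 2 - (a22 + a33 + q * n) * z + (a22 * a33 - a12 - q * m - q * a23)) = 1 := by
    linear_combination hz0
  rcases Int.eq_one_or_neg_one_of_mul_eq_one hunit with h | h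
  · left
    rw [h] at hz0
    linear_combination hz0
  · right
    rw [h] at hz0
    linear_combination -hz0

end Pool.Agent.H96.HE
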